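import Pool.Agent.H700R3.PowDiff.Grow

/-!
# Eliminating cells
-/

set_option autoImplicit false
open scoped Pointwise

namespace Pool.Agent.H700R3.PowDiff

variable {G : Type*} [Group G]

/-- the subgroup generated by the difference set of `X` does not have index at most `n` -/
def Big (n : ℕ) (X : Set G) : Prop :=
  ¬ ((Subgroup.closure (X * X⁻¹)).index ≠ 0 ∧ (Subgroup.closure (X * X⁻¹)).index ≤ n)

theorem not_cov_of_big {n : ℕ} {X : Set G} (h : Big n X) : ¬ Cov n Set.univ (X * X⁻¹) := by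
  rintro ⟨F, hF, hc⟩
  apply h
  have hcov : ⋃ f ∈ F, f • ((Subgroup.closure (X * X⁻¹) : Subgroup G) : Set G) = Set.univ := by
    rw [Set.eq_univ_iff_forall]
    intro g
    obtain ⟨f, hf, y, hy, hfy⟩ := Set.mem_mul.1 (hc (Set.mem_univ g))
    simp only [Set.mem_iUnion]
    refine ⟨f, hf, ?_⟩
    rw [Set.mem_smul_set]
    exact ⟨y, Subgroup.subset_closure hy, hfy⟩
  obtain ⟨f, -, h1, h2⟩ := Subgroup.exists_index_le_card_of_leftCoset_cover
    (H := fun _ : G => Subgroup.closure (X * X⁻¹)) (g := fun f => f) hcov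
  exact ⟨h1.index_ne_zero, h2.trans hF⟩

theorem exists_not_big {n : ℕ} (A : Fin n → Set G) (hA : ∀ g, ∃ i, g ∈ A i) :
    ∃ i, ¬ Big n (A i) := by
  classical
  have hch : ∀ i : Fin n, ∃ a : G, ∀ x ∈ A i, x⁻¹ ∈
      a • ((Subgroup.closure (A i * (A i)⁻¹) : Subgroup G) : Set G) := by
    intro i
    rcases (A i).eq_empty_or_nonempty with he | ⟨a, ha⟩
    · exact ⟨1, fun x hx => by rw [he] at hx; exact hx.elim⟩
    · refine ⟨a⁻¹, fun x hx => ?_⟩
      rw [Set.mem_smul_set]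
      refine ⟨a * x⁻¹, Subgroup.subset_closure (Set.mul_mem_mul ha (Set.inv_mem_inv.2 hx)), ?_⟩
      rw [smul_eq_mul, inv_mul_cancel_left]
  choose a ha using hch
  have hcov : ⋃ i ∈ (Finset.univ : Finset (Fin n)),
      a i • ((Subgroup.closure (A i * (A i)⁻¹) : Subgroup G) : Set G) = Set.univ := by
    rw [Set.eq_univ_iff_forall]
    intro g
    obtain ⟨i, hi⟩ := hA g⁻¹
    simp only [Set.mem_iUnion]
    refine ⟨i, Finset.mem_univ i, ?_⟩
    have := ha i _ hi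
    rwa [inv_inv] at this
  obtain ⟨i, -, h1, h2⟩ := Subgroup.exists_index_le_card_of_leftCoset_cover
    (H := fun i : Fin n => Subgroup.closure (A i * (A i)⁻¹)) (g := a) hcov
  refine ⟨i, fun hbig => hbig ⟨h1.index_ne_zero, ?_⟩⟩
  simpa using h2

theorem cov_one_of_cover {X Y : Set G} (h : ∀ g, g ∈ X ∪ Y) : Cov 1 Set.univ (X ∪ Y) :=
  ⟨{1}, by simp, by intro g _; simpa using h g⟩

theorem cov_univ_of {k : ℕ} {X Y : Set G} (h : ∀ g, g ∈ X) (hc : Cov k X Y) :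
    Cov k Set.univ Y := by
  obtain ⟨F, hF, hX⟩ := hc
  exact ⟨F, hF, fun g _ => hX (h g)⟩

/-- two cells -/
theorem two {X Y : Set G} (hc : ∀ g, g ∈ X ∪ Y) (hX : ¬ Cov 2 Set.univ (X * X⁻¹)) :
    Cov 2 Set.univ (Y * Y⁻¹) := by
  have h1 : Cov 1 X Y := (cov_one_of_cover hc).elim fun h => hX (h.mono (by norm_num))
  exact (cov_univ_of hc (h1.union (Cov.self Y))).diff

/-- three cells, first step -/
theorem elim_one {X R : Set G} (hc : ∀ g, g ∈ X ∪ R) (hX : ¬ Cov 1 Set.univ (X * X⁻¹)) :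
    Cov 2 Set.univ R :=
  cov_univ_of hc (((cov_one_of_cover hc).elim hX).union (Cov.self R))

/-- three cells -/
theorem three {X Y Z : Set G} (hc : ∀ g, g ∈ X ∪ (Y ∪ Z))
    (hX : ¬ Cov 3 Set.univ (X * X⁻¹)) (hY : ¬ Cov 3 Set.univ (Y * Y⁻¹)) :
    Cov 6 Set.univ (Z * Z⁻¹) := by
  have h1 : Cov 2 Set.univ (Y ∪ Z) := elim_one hc fun h => hX (h.mono (by norm_num))
  have h2 : Cov 2 Y Z := h1.elim fun h => hY (h.mono (by norm_num))
  exact ((h1.trans (h2.union (Cov.self Z))).mono (by norm_num)).diff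

/-- four cells, two of which have difference sets no `22` translates of which cover the group -/
theorem four_a {X Y Z W : Set G} (hc : ∀ g, g ∈ X ∪ (Y ∪ (Z ∪ W)))
    (hX : ¬ Cov 4 Set.univ (X * X⁻¹)) (hY : ¬ Cov 22 Set.univ (Y * Y⁻¹))
    (hZ : ¬ Cov 22 Set.univ (Z * Z⁻¹)) :
    Cov 22 Set.univ (W * W⁻¹) := by
  have nX : ∀ k ≤ 4, ¬ Cov k Set.univ (X * X⁻¹) := fun k hk h => hX (h.mono hk)
  have nY : ∀ k ≤ 22, ¬ Cov k Set.univ (Y * Y⁻¹) := fun k hk h => hY (h.mono hk)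
  have nZ : ∀ k ≤ 22, ¬ Cov k Set.univ (Z * Z⁻¹) := fun k hk h => hZ (h.mono hk)
  -- the cover with each of X, Y, Z in front
  have cY : ∀ g, g ∈ Y ∪ (X ∪ (Z ∪ W)) := fun g => by
    rcases hc g with h | h | h | h <;> simp [h]
  have cZ : ∀ g, g ∈ Z ∪ (X ∪ (Y ∪ W)) := fun g => by
    rcases hc g with h | h | h | h <;> simp [h]
  have cX' : ∀ g, g ∈ X ∪ (Z ∪ (Y ∪ W)) := fun g => by
    rcases hc g with h | h | h | h <;> simp [h]
  -- two cells in terms of the others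
  have e1 : Cov 2 Y (Z ∪ W) := (elim_one hc (nX 1 (by norm_num))).elim (nY 2 (by norm_num))
  have e2 : Cov 2 X (Z ∪ W) := (elim_one cY (nY 1 (by norm_num))).elim (nX 2 (by norm_num))
  have e3 : Cov 5 Set.univ (Z ∪ W) :=
    cov_univ_of hc ((e2.union (e1.union (Cov.self (Z ∪ W)))).mono (by norm_num))
  have e4 : Cov 5 Z W := e3.elim (nZ 5 (by norm_num))
  have e5 : Cov 2 Z (Y ∪ W) := (elim_one cX' (nX 1 (by norm_num))).elim (nZ 2 (by norm_num))
  have e6 : Cov 2 X (Y ∪ W) := (elim_one cZ (nZ 1 (by norm_num))).elim (nX 2 (by norm_num))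
  have e7 : Cov 5 Set.univ (Y ∪ W) :=
    cov_univ_of cX' ((e6.union (e5.union (Cov.self (Y ∪ W)))).mono (by norm_num))
  have e8 : Cov 5 Y W := e7.elim (nY 5 (by norm_num))
  have e9 : Cov 11 (Y ∪ (Z ∪ W)) W := (e8.union (e4.union (Cov.self W))).mono (by norm_num)
  have e10 : Cov 2 Set.univ (Y ∪ (Z ∪ W)) := elim_one hc (nX 1 (by norm_num))
  exact ((e10.trans e9).mono (by norm_num)).diff

theorem exists_not_mem {H₁ H₂ : Subgroup G} (h1 : ¬ (H₁.index ≠ 0 ∧ H₁.index ≤ 4))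
    (h2 : ¬ (H₂.index ≠ 0 ∧ H₂.index ≤ 4)) (v : G) :
    ∃ u, u ∉ H₁ ∧ u ∉ H₂ ∧ v⁻¹ * u ∉ H₁ ∧ v⁻¹ * u ∉ H₂ := by
  classical
  by_contra hno
  push Not at hno
  let H : Fin 4 → Subgroup G := ![H₁, H₂, H₁, H₂]
  let g : Fin 4 → G := ![1, 1, v, v]
  have hcov : ⋃ i ∈ (Finset.univ : Finset (Fin 4)), g i • ((H i : Subgroup G) : Set G) =
      Set.univ := by
    rw [Set.eq_univ_iff_forall]
    intro u
    simp only [Set.mem_iUnion]
    by_cases a1 : u ∈ H₁
    · refine ⟨0, Finset.mem_univ _, ?_⟩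
      rw [Set.mem_smul_set]
      exact ⟨u, a1, one_mul u⟩
    by_cases a2 : u ∈ H₂
    · refine ⟨1, Finset.mem_univ _, ?_⟩
      rw [Set.mem_smul_set]
      exact ⟨u, a2, one_mul u⟩
    by_cases a3 : v⁻¹ * u ∈ H₁
    · refine ⟨2, Finset.mem_univ _, ?_⟩
      rw [Set.mem_smul_set]
      exact ⟨v⁻¹ * u, a3, mul_inv_cancel_left v u⟩
    · refine ⟨3, Finset.mem_univ _, ?_⟩
      rw [Set.mem_smul_set]
      exact ⟨v⁻¹ * u, hno u a1 a2 a3, mul_inv_cancel_left v u⟩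
  obtain ⟨i, -, hi1, hi2⟩ := Subgroup.exists_index_le_card_of_leftCoset_cover
    (H := H) (g := g) hcov
  have hi3 : (H i).index ≤ 4 := by simpa using hi2
  have hi4 := hi1.index_ne_zero
  fin_cases i
  · exact h1 ⟨hi4, hi3⟩
  · exact h2 ⟨hi4, hi3⟩
  · exact h1 ⟨hi4, hi3⟩
  · exact h2 ⟨hi4, hi3⟩

/-- four cells, two of which generate subgroups of index larger than `4` -/
theorem four_b {X Y Z W : Set G} (hc : ∀ g, g ∈ X ∪ (Y ∪ (Z ∪ W)))
    (hX : Big 4 X) (hY : Big 4 Y) (hZ : ¬ Cov 4 Set.univ (Z * Z⁻¹)) :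
    Cov 22 Set.univ (W * W⁻¹) := by
  classical
  obtain ⟨v, v1, v2, -, -⟩ := exists_not_mem hX hY 1
  obtain ⟨u, u1, u2, u3, u4⟩ := exists_not_mem hX hY v
  have sep : ∀ (S : Set G) (p q : G), p ∈ S → q ∈ S → p * q⁻¹ ∈ Subgroup.closure (S * S⁻¹) :=
    fun S p q hp hq => Subgroup.subset_closure (Set.mul_mem_mul hp (Set.inv_mem_inv.2 hq))
  have hcov : Cov 3 Set.univ (Z ∪ W) := by
    refine ⟨{1, v, u}, Finset.card_le_three, fun g _ => ?_⟩
    by_contra hg
    have n1 : g ∉ Z ∪ W := fun h => hg (Set.mem_mul.2 ⟨1, by simp, g, h, one_mul g⟩)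
    have n2 : v⁻¹ * g ∉ Z ∪ W := fun h =>
      hg (Set.mem_mul.2 ⟨v, by simp, v⁻¹ * g, h, mul_inv_cancel_left v g⟩)
    have n3 : u⁻¹ * g ∉ Z ∪ W := fun h =>
      hg (Set.mem_mul.2 ⟨u, by simp, u⁻¹ * g, h, mul_inv_cancel_left u g⟩)
    have d12 : g * (v⁻¹ * g)⁻¹ = v := by group
    have d13 : g * (u⁻¹ * g)⁻¹ = u := by group
    have d23 : v⁻¹ * g * (u⁻¹ * g)⁻¹ = v⁻¹ * u := by group
    rcases hc g with a | a | a
    · rcases hc (v⁻¹ * g) with b | b | b
      · have := sep _ _ _ a b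
        rw [d12] at this
        exact v1 this
      · rcases hc (u⁻¹ * g) with c | c | c
        · have := sep _ _ _ a c
          rw [d13] at this
          exact u1 this
        · have := sep _ _ _ b c
          rw [d23] at this
          exact u4 this
        · exact n3 c
      · exact n2 b
    · rcases hc (v⁻¹ * g) with b | b | b
      · rcases hc (u⁻¹ * g) with c | c | c
        · have := sep _ _ _ b c
          rw [d23] at this
          exact u3 this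
        · have := sep _ _ _ a c
          rw [d13] at this
          exact u2 this
        · exact n3 c
      · have := sep _ _ _ a b
        rw [d12] at this
        exact v2 this
      · exact n2 b
    · exact n1 a
  have e1 : Cov 3 Z W := hcov.elim fun h => hZ (h.mono (by norm_num))
  exact ((hcov.trans (e1.union (Cov.self W))).mono (by norm_num)).diff

/-- four cells -/
theorem four {X Y Z W : Set G} (hc : ∀ g, g ∈ X ∪ (Y ∪ (Z ∪ W)))
    (hX : Big 4 X ∨ ¬ Cov 22 Set.univ (X * X⁻¹)) (hY : Big 4 Y ∨ ¬ Cov 22 Set.univ (Y * Y⁻¹))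
    (hZ : Big 4 Z ∨ ¬ Cov 22 Set.univ (Z * Z⁻¹)) :
    Cov 22 Set.univ (W * W⁻¹) := by
  have wk : ∀ {S : Set G}, (Big 4 S ∨ ¬ Cov 22 Set.univ (S * S⁻¹)) →
      ¬ Cov 4 Set.univ (S * S⁻¹) := fun {S} h hS =>
    h.elim (fun h => not_cov_of_big h hS) (fun h => h (hS.mono (by norm_num)))
  have cY : ∀ g, g ∈ Y ∪ (X ∪ (Z ∪ W)) := fun g => by
    rcases hc g with h | h | h | h <;> simp [h]
  have cZ : ∀ g, g ∈ Z ∪ (X ∪ (Y ∪ W)) := fun g => by
    rcases hc g with h | h | h | h <;> simp [h]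
  have cXZ : ∀ g, g ∈ X ∪ (Z ∪ (Y ∪ W)) := fun g => by
    rcases hc g with h | h | h | h <;> simp [h]
  have cYZ : ∀ g, g ∈ Y ∪ (Z ∪ (X ∪ W)) := fun g => by
    rcases hc g with h | h | h | h <;> simp [h]
  rcases hX with pX | qX
  · rcases hY with pY | qY
    · exact four_b hc pX pY (wk hZ)
    · rcases hZ with pZ | qZ
      · exact four_b cXZ pX pZ (wk (Or.inr qY))
      · exact four_a hc (wk (Or.inl pX)) qY qZ
  · rcases hY with pY | qY
    · rcases hZ with pZ | qZ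
      · exact four_b cYZ pY pZ (wk (Or.inr qX))
      · exact four_a cY (wk (Or.inl pY)) qX qZ
    · exact four_a cZ (wk hZ) qX qY

/-- the assertion once some cell is neither big nor thin -/
theorem finish {n m : ℕ} (hm : 1 ≤ m) (k : ℕ) (hk : 3 * m - 2 ≤ k) (X : Set G)
    (h1 : ¬ Big n X) (h2 : Cov m Set.univ (X * X⁻¹)) :
    ∃ H : Subgroup G, ((X * X⁻¹) ^ k : Set G) = (H : Set G) ∧ H.index ≠ 0 ∧ H.index ≤ n := by
  have hne : X.Nonempty := by
    rcases X.eq_empty_or_nonempty with he | hne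
    · exfalso
      obtain ⟨F, -, hF⟩ := h2
      have := hF (Set.mem_univ (1 : G))
      rw [he] at this
      simp at this
    · exact hne
  obtain ⟨x, hx⟩ := hne
  refine ⟨Subgroup.closure (X * X⁻¹), ?_, not_not.1 h1⟩
  refine grow _ ?_ ?_ m hm h2 k hk
  · rw [← mul_inv_cancel x]
    exact Set.mul_mem_mul hx (Set.inv_mem_inv.2 hx)
  · rw [mul_inv_rev, inv_inv]

end Pool.Agent.H700R3.PowDiff
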