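import Mathlib

/-!
# Powers of a set finitely many translates of which cover the group
-/

set_option autoImplicit false
open scoped Pointwise

namespace Pool.Agent.H700R3.PowDiff

variable {G : Type*} [Group G]

/-- `X` is covered by `k` left translates of `Y`. -/
def Cov (k : ℕ) (X Y : Set G) : Prop := ∃ F : Finset G, F.card ≤ k ∧ X ⊆ (F : Set G) * Y

theorem Cov.mono {k l : ℕ} {X Y : Set G} (h : Cov k X Y) (hkl : k ≤ l) : Cov l X Y := by
  obtain ⟨F, hF, hX⟩ := h
  exact ⟨F, hF.trans hkl, hX⟩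

theorem Cov.self (X : Set G) : Cov 1 X X := ⟨{1}, by simp, by simp⟩

theorem Cov.union {k l : ℕ} {X Y Z : Set G} (h1 : Cov k X Z) (h2 : Cov l Y Z) :
    Cov (k + l) (X ∪ Y) Z := by
  classical
  obtain ⟨F, hF, hX⟩ := h1
  obtain ⟨F', hF', hY⟩ := h2
  refine ⟨F ∪ F', (Finset.card_union_le _ _).trans (by omega), ?_⟩
  rw [Finset.coe_union, Set.union_mul]
  exact Set.union_subset_union hX hY

theorem Cov.trans {k l : ℕ} {X Y Z : Set G} (h1 : Cov k X Y) (h2 : Cov l Y Z) :
    Cov (k * l) X Z := by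
  classical
  obtain ⟨F, hF, hX⟩ := h1
  obtain ⟨F', hF', hY⟩ := h2
  refine ⟨F * F', Finset.card_mul_le.trans (Nat.mul_le_mul hF hF'), ?_⟩
  rw [Finset.coe_mul, mul_assoc]
  exact hX.trans (Set.mul_subset_mul_left hY)

theorem Cov.elim {k : ℕ} {X Y : Set G} (h : Cov k Set.univ (X ∪ Y))
    (hX : ¬ Cov k Set.univ (X * X⁻¹)) : Cov k X Y := by
  classical
  obtain ⟨F, hF, hc⟩ := h
  have hne : ∃ z, z ∉ (F : Set G) * (X * X⁻¹) := by
    by_contra hne
    push Not at hne
    exact hX ⟨F, hF, fun z _ => hne z⟩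
  obtain ⟨z, hz⟩ := hne
  refine ⟨F.image (fun f => z⁻¹ * f), Finset.card_image_le.trans hF, fun x hx => ?_⟩
  obtain ⟨f, hf, y, hy, hfy⟩ := Set.mem_mul.1 (hc (Set.mem_univ (z * x)))
  rcases hy with hy | hy
  · exfalso
    apply hz
    refine Set.mem_mul.2 ⟨f, hf, y * x⁻¹, Set.mul_mem_mul hy (Set.inv_mem_inv.2 hx), ?_⟩
    rw [← mul_assoc, hfy, mul_inv_cancel_right]
  · refine Set.mem_mul.2 ⟨z⁻¹ * f, ?_, y, hy, ?_⟩
    · rw [Finset.coe_image]
      exact ⟨f, hf, rfl⟩
    · rw [mul_assoc, hfy, inv_mul_cancel_left]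

theorem Cov.diff {k : ℕ} {W : Set G} (h : Cov k Set.univ W) :
    Cov k Set.univ (W * W⁻¹) := by
  obtain ⟨F, hF, hc⟩ := h
  refine ⟨F, hF, fun g _ => ?_⟩
  obtain ⟨f₀, hf₀, w, hw, -⟩ := Set.mem_mul.1 (hc (Set.mem_univ (1 : G)))
  obtain ⟨f, hf, y, hy, hfy⟩ := Set.mem_mul.1 (hc (Set.mem_univ (g * w)))
  refine Set.mem_mul.2 ⟨f, hf, y * w⁻¹, Set.mul_mem_mul hy (Set.inv_mem_inv.2 hw), ?_⟩
  rw [← mul_assoc, hfy, mul_inv_cancel_right]

/-! ### growth -/

theorem exists_path (D : Set G) (N : ℕ) (g : G) (hg : g ∈ D ^ N) :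
    ∃ p : ℕ → G, p 0 = 1 ∧ p N = g ∧ ∀ i j, i ≤ j → j ≤ N → (p i)⁻¹ * p j ∈ D ^ (j - i) := by
  induction N generalizing g with
  | zero =>
    rw [pow_zero, Set.mem_one] at hg
    refine ⟨fun _ => 1, rfl, hg.symm, fun i j hij hj => ?_⟩
    obtain rfl : j = 0 := by omega
    obtain rfl : i = 0 := by omega
    simp
  | succ N ih =>
    rw [pow_succ] at hg
    obtain ⟨g', hg', d, hd, rfl⟩ := Set.mem_mul.1 hg
    obtain ⟨p, hp0, hpN, hp⟩ := ih g' hg'
    refine ⟨fun j => if j ≤ N then p j else g' * d, by simp [hp0], by simp, fun i j hij hj => ?_⟩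
    by_cases hjN : j ≤ N
    · have hiN : i ≤ N := hij.trans hjN
      simp only [hjN, hiN, if_true]
      exact hp i j hij hjN
    · obtain rfl : j = N + 1 := by omega
      by_cases hiN : i ≤ N
      · simp only [hiN, hjN, if_true, if_false]
        have e1 : N + 1 - i = (N - i) + 1 := by omega
        rw [e1, pow_succ, ← mul_assoc]
        refine Set.mul_mem_mul ?_ hd
        rw [← hpN]
        exact hp i N hiN le_rfl
      · obtain rfl : i = N + 1 := by omega
        simp

theorem card_le_three (J : Finset ℕ) (h : ∀ i ∈ J, ∀ j ∈ J, i ≤ j → j ≤ i + 2) : J.card ≤ 3 := by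
  rcases J.eq_empty_or_nonempty with rfl | hne
  · simp
  · have h1 : J ⊆ Finset.Icc (J.min' hne) (J.min' hne + 2) := by
      intro j hj
      rw [Finset.mem_Icc]
      exact ⟨J.min'_le j hj, h _ (J.min'_mem hne) j hj (J.min'_le j hj)⟩
    refine (Finset.card_le_card h1).trans ?_
    rw [Nat.card_Icc]
    omega

theorem grow_step (D : Set G) (h1 : (1 : G) ∈ D) (hinv : D⁻¹ = D) (m : ℕ) (hm : 1 ≤ m)
    (h : Cov m Set.univ D) : D ^ (3 * m - 1) ⊆ D ^ (3 * m - 2) := by
  classical
  obtain ⟨F, hF, hc⟩ := h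
  intro g hg
  by_contra hng
  have mono : ∀ {i j : ℕ}, i ≤ j → D ^ i ⊆ D ^ j := fun hij => Set.pow_subset_pow_right h1 hij
  obtain ⟨p, hp0, hpN, hp⟩ := exists_path D (3 * m - 1) g hg
  have hend : ∀ j ≤ 3 * m - 1, (p j)⁻¹ * g ∈ D ^ (3 * m - 1 - j) := fun j hj => by
    rw [← hpN]
    exact hp j _ hj le_rfl
  obtain ⟨f₀, hf₀, -⟩ := Set.mem_mul.1 (hc (Set.mem_univ (1 : G)))
  have hchoose : ∀ j : ℕ, ∃ f ∈ F, f⁻¹ * (f₀ * p j) ∈ D := by
    intro j
    obtain ⟨f, hf, d, hd, hfd⟩ := Set.mem_mul.1 (hc (Set.mem_univ (f₀ * p j)))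
    exact ⟨f, hf, by rw [← hfd, inv_mul_cancel_left]; exact hd⟩
  choose φ hφF hφ using hchoose
  have hfib : ∀ f ∈ F, ((Finset.range (3 * m)).filter (fun j => φ j = f)).card ≤ 3 := by
    intro f _
    refine card_le_three _ fun i hi j hj hij => ?_
    rw [Finset.mem_filter, Finset.mem_range] at hi hj
    by_contra hlt
    push Not at hlt
    have e1 : (p i)⁻¹ * p j ∈ D ^ 2 := by
      have a1 := hφ i
      have a2 := hφ j
      rw [hi.2] at a1
      rw [hj.2] at a2
      have a3 : (f⁻¹ * (f₀ * p i))⁻¹ ∈ D := by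
        rw [← hinv]
        exact Set.inv_mem_inv.2 a1
      have a4 := Set.mul_mem_mul a3 a2
      rw [pow_two]
      convert a4 using 1
      group
    apply hng
    have e2 : g = p i * ((p i)⁻¹ * p j) * ((p j)⁻¹ * g) := by group
    have e3 : p i ∈ D ^ i := by
      have := hp 0 i (Nat.zero_le i) (by omega)
      rwa [hp0, inv_one, one_mul, Nat.sub_zero] at this
    have e4 := Set.mul_mem_mul (Set.mul_mem_mul e3 e1) (hend j (by omega))
    rw [← e2, ← pow_add, ← pow_add] at e4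
    exact mono (by omega) e4
  have hfib0 : ((Finset.range (3 * m)).filter (fun j => φ j = f₀)).card ≤ 2 := by
    have hsub : (Finset.range (3 * m)).filter (fun j => φ j = f₀) ⊆ Finset.range 2 := by
      intro j hj
      rw [Finset.mem_filter, Finset.mem_range] at hj
      rw [Finset.mem_range]
      by_contra hlt
      push Not at hlt
      have a2 := hφ j
      rw [hj.2, inv_mul_cancel_left] at a2
      apply hng
      have e2 : g = p j * ((p j)⁻¹ * g) := by group
      have e4 := Set.mul_mem_mul a2 (hend j (by omega))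
      rw [← e2, ← pow_succ'] at e4
      exact mono (by omega) e4
    exact (Finset.card_le_card hsub).trans (by simp)
  have hcount : (Finset.range (3 * m)).card =
      ∑ f ∈ F, ((Finset.range (3 * m)).filter (fun j => φ j = f)).card :=
    Finset.card_eq_sum_card_fiberwise fun j _ => hφF j
  rw [Finset.card_range, ← Finset.add_sum_erase F _ hf₀] at hcount
  have hsum : ∑ f ∈ F.erase f₀, ((Finset.range (3 * m)).filter (fun j => φ j = f)).card ≤
      (F.erase f₀).card * 3 := by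
    rw [← smul_eq_mul]
    exact Finset.sum_le_card_nsmul _ _ _ fun f hf => hfib f (Finset.mem_of_mem_erase hf)
  rw [Finset.card_erase_of_mem hf₀] at hsum
  have hpos : 0 < F.card := Finset.card_pos.2 ⟨f₀, hf₀⟩
  omega

theorem grow (D : Set G) (h1 : (1 : G) ∈ D) (hinv : D⁻¹ = D) (m : ℕ) (hm : 1 ≤ m)
    (h : Cov m Set.univ D) (k : ℕ) (hk : 3 * m - 2 ≤ k) :
    D ^ k = (Subgroup.closure D : Set G) := by
  have mono : ∀ {i j : ℕ}, i ≤ j → D ^ i ⊆ D ^ j := fun hij => Set.pow_subset_pow_right h1 hij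
  have hs := grow_step D h1 hinv m hm h
  have hs1 : D ^ (k + 1) ⊆ D ^ k := by
    have e1 : D ^ (k + 1) = D ^ (3 * m - 1) * D ^ (k - (3 * m - 2)) := by
      rw [← pow_add]
      congr 1
      omega
    have e2 : D ^ k = D ^ (3 * m - 2) * D ^ (k - (3 * m - 2)) := by
      rw [← pow_add]
      congr 1
      omega
    calc D ^ (k + 1) = D ^ (3 * m - 1) * D ^ (k - (3 * m - 2)) := e1
      _ ⊆ D ^ (3 * m - 2) * D ^ (k - (3 * m - 2)) := Set.mul_subset_mul_right hs
      _ = D ^ k := e2.symm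
  have hs2 : ∀ j, D ^ (k + j) ⊆ D ^ k := by
    intro j
    induction j with
    | zero => exact subset_rfl
    | succ j ih =>
      rw [← add_assoc, pow_succ]
      refine (Set.mul_subset_mul_right ih).trans ?_
      rw [← pow_succ]
      exact hs1
  apply Set.Subset.antisymm
  · have : ∀ j, D ^ j ⊆ (Subgroup.closure D : Set G) := by
      intro j
      induction j with
      | zero =>
        rw [pow_zero]
        intro x hx
        rw [Set.mem_one] at hx
        rw [hx]
        exact (Subgroup.closure D).one_mem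
      | succ j ih =>
        rw [pow_succ]
        rintro _ ⟨a, ha, b, hb, rfl⟩
        exact (Subgroup.closure D).mul_mem (ih ha) (Subgroup.subset_closure hb)
    exact this k
  · intro x hx
    refine Subgroup.closure_induction (p := fun x _ => x ∈ D ^ k) ?_ ?_ ?_ ?_ hx
    · intro x hx
      have : D ^ 1 ⊆ D ^ k := mono (by omega)
      rw [pow_one] at this
      exact this hx
    · have : D ^ 0 ⊆ D ^ k := mono (by omega)
      exact this (by simp)
    · intro x y _ _ hx hy
      have := Set.mul_mem_mul hx hy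
      rw [← pow_add] at this
      exact hs2 k this
    · intro x _ hx
      have : x⁻¹ ∈ (D ^ k)⁻¹ := Set.inv_mem_inv.2 hx
      rwa [← inv_pow, hinv] at this

end Pool.Agent.H700R3.PowDiff
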